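import Pool.Agent.NH47.AZ.Loc

set_option autoImplicit false
set_option linter.unusedSectionVars false

open scoped ENNReal

/-! Kernel dimensions do not change under twisting by a character. -/

namespace Pool.Agent.NH47.AZ

open W649.ZL MvPolynomial

universe u

section
variable {G : Type u} [Group G]

theorem memlp_un (c : G → ℂ) (hc : ∀ x, ‖c x‖ = 1) (f : EE G Unit) :
    Memℓp (fun x : G × Unit => c x.1 * f x) 2 := by
  rw [memlp_two_iff]
  have h := (memlp_two_iff _).1 f.2
  refine h.congr fun x => ?_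
  rw [norm_mul, hc, one_mul]

/-- multiplication by a function of absolute value one -/
noncomputable def un (c : G → ℂ) (hc : ∀ x, ‖c x‖ = 1) (f : EE G Unit) : EE G Unit :=
  ⟨fun x => c x.1 * f x, memlp_un c hc f⟩

theorem un_apply (c : G → ℂ) (hc : ∀ x, ‖c x‖ = 1) (f : EE G Unit) (x : G) :
    un c hc f (x, ()) = c x * f (x, ()) := rfl

theorem isometry_un (c : G → ℂ) (hc : ∀ x, ‖c x‖ = 1) : Isometry (un c hc) := by
  apply Isometry.of_dist_eq
  intro f g
  rw [dist_eq_norm, dist_eq_norm]
  have e1 : un c hc f - un c hc g = un c hc (f - g) := by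
    ext ⟨x, ⟨⟩⟩
    change c x * f (x, ()) - c x * g (x, ()) = c x * (f - g) (x, ())
    rw [← mul_sub]; rfl
  rw [e1]
  have e2 : ‖un c hc (f - g)‖ ^ 2 = ‖f - g‖ ^ 2 := by
    rw [norm_sq_tsum, norm_sq_tsum]
    refine tsum_congr fun x => ?_
    change ‖c x.1 * (f - g) x‖ ^ 2 = _
    rw [norm_mul, hc, one_mul]
  exact (sq_eq_sq₀ (norm_nonneg _) (norm_nonneg _)).1 e2

theorem un_dl (c : G → ℂ) (hc : ∀ x, ‖c x‖ = 1) (h1 : c 1 = 1) :
    un c hc (dl ((1 : G), ())) = dl ((1 : G), ()) := by
  ext ⟨x, ⟨⟩⟩
  rw [un_apply]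
  by_cases hx : x = 1
  · subst hx; rw [h1, one_mul]
  · rw [dl_apply_ne, mul_zero]
    intro h; exact hx (congrArg Prod.fst h)

theorem vd_un (c : G → ℂ) (hc : ∀ x, ‖c x‖ = 1) (h1 : c 1 = 1)
    (T T' : EE G Unit →L[ℂ] EE G Unit) (h : ∀ f, T' (un c hc f) = 0 ↔ T f = 0) :
    vd (LinearMap.ker (T' : EE G Unit →ₗ[ℂ] EE G Unit))
      = vd (LinearMap.ker (T : EE G Unit →ₗ[ℂ] EE G Unit)) := by
  rw [vd_eq_infDist _ (ContinuousLinearMap.isClosed_ker T'),
    vd_eq_infDist _ (ContinuousLinearMap.isClosed_ker T)]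
  have hc' : ∀ x, ‖(c x)⁻¹‖ = 1 := fun x => by rw [norm_inv, hc, inv_one]
  have hback : ∀ F, un c hc (un (fun x => (c x)⁻¹) hc' F) = F := by
    intro F
    ext ⟨x, ⟨⟩⟩
    have hc0 : c x ≠ 0 := by
      intro h0
      have := hc x
      rw [h0, norm_zero] at this
      exact zero_ne_one this
    rw [un_apply, un_apply, ← mul_assoc, mul_inv_cancel₀ hc0, one_mul]
  have himg : un c hc '' (LinearMap.ker (T : EE G Unit →ₗ[ℂ] EE G Unit) : Set (EE G Unit))
      = (LinearMap.ker (T' : EE G Unit →ₗ[ℂ] EE G Unit) : Set (EE G Unit)) := by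
    ext F
    constructor
    · rintro ⟨f, hf, rfl⟩
      exact (h f).2 hf
    · intro hF
      exact ⟨un (fun x => (c x)⁻¹) hc' F, (h _).1 (by rw [hback]; exact hF), hback F⟩
  refine Finset.sum_congr rfl fun j _ => ?_
  obtain ⟨⟩ := j
  rw [← himg]
  conv_lhs => rw [← un_dl c hc h1]
  rw [Metric.infDist_image (isometry_un c hc)]

/-- the element with the coefficients `c x * α x` -/
noncomputable def sm (c : G → ℂ) (α : G →₀ ℂ) : G →₀ ℂ :=
  Finsupp.onFinset α.support (fun x => c x * α x) (by
    intro x hx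
    rw [Finsupp.mem_support_iff]
    intro h0
    rw [h0, mul_zero] at hx
    exact hx rfl)

theorem sm_apply (c : G → ℂ) (α : G →₀ ℂ) (x : G) : sm c α x = c x * α x := rfl

theorem sm_support (c : G → ℂ) (α : G →₀ ℂ) : (sm c α).support ⊆ α.support :=
  Finsupp.support_onFinset_subset

theorem kdim_unitary (c : G → ℂ) (hc : ∀ x, ‖c x‖ = 1) (hm : ∀ x y, c (x * y) = c x * c y)
    (α : G →₀ ℂ) : kdim (sm c α) = kdim α := by
  have hne : ∀ x, c x ≠ 0 := by
    intro x h0
    have := hc x
    rw [h0, norm_zero] at this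
    exact zero_ne_one this
  have h1 : c 1 = 1 := by
    have := hm 1 1
    rw [mul_one] at this
    exact (mul_eq_left₀ (hne 1)).1 this.symm
  rw [kdim_eq_vd, kdim_eq_vd]
  apply vd_un c hc h1
  intro f
  have key : ∀ x, cop (sm c α) (un c hc f) (x, ()) = c x * cop α f (x, ()) := by
    intro x
    rw [cop_apply, cop_apply, Finset.mul_sum]
    rw [Finset.sum_subset (sm_support c α) (by
      intro k _ hk
      rw [Finsupp.notMem_support_iff.1 hk, zero_mul])]
    refine Finset.sum_congr rfl fun k _ => ?_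
    rw [un_apply, sm_apply]
    have h2 : c x = c k * c (k⁻¹ * x) := by rw [← hm, mul_inv_cancel_left]
    rw [h2]
    ring
  constructor
  · intro h
    ext ⟨x, ⟨⟩⟩
    have h2 := key x
    rw [h] at h2
    have h3 : (0 : ℂ) = c x * cop α f (x, ()) := h2
    exact (mul_eq_zero.1 h3.symm).resolve_left (hne x)
  · intro h
    ext ⟨x, ⟨⟩⟩
    rw [key x, h]
    change c x * (0 : ℂ) = 0
    rw [mul_zero]

theorem locus_eq (α : G →₀ ℂ) (c : G → ℂ) :
    lin (fun t : α.support => Ltr (t : G)) (fun t : α.support => c t * α t) = cop (sm c α) := by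
  rw [← lin_Ltr_eq (sm c α) α.support (sm_support c α)]
  rfl

theorem differentiable_eval {σ : Type u} (f : MvPolynomial σ ℂ) (a : ℂ → σ → ℂ)
    (ha : ∀ i, Differentiable ℂ (fun w => a w i)) : Differentiable ℂ (fun w => eval (a w) f) := by
  induction f using MvPolynomial.induction_on with
  | C z => simp only [eval_C]; exact differentiable_const z
  | add p q hp hq => simp only [map_add]; exact hp.add hq
  | mul_X p i hp => simp only [map_mul, eval_X]; exact hp.mul (ha i)

/-- Twisting by a real character does not decrease the kernel dimension. -/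
theorem kdim_le_real (l : G → ℝ) (hl : ∀ x y, l (x * y) = l x + l y) (α : G →₀ ℂ) :
    kdim α ≤ kdim (sm (fun x => (Real.exp (l x) : ℂ)) α) := by
  classical
  set A : α.support → EE G Unit →L[ℂ] EE G Unit := fun t => Ltr (t : G) with hAdef
  have hA : ∀ i, Eqv (A i) := fun i => elem_eqv _ _ _
  let a : ℂ → α.support → ℂ := fun w t => Complex.exp (w * (l t : ℂ)) * α t
  have hI : ∀ y : ℝ, a (y * Complex.I) ∈ locus A (kdim α) := by
    intro y
    change kdim α ≤ vd (LinearMap.ker (lin A (a (y * Complex.I)) : EE G Unit →ₗ[ℂ] EE G Unit))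
    have h1 := locus_eq α (fun x => Complex.exp (y * Complex.I * (l x : ℂ)))
    have h2 : lin A (a (y * Complex.I)) = cop (sm (fun x => Complex.exp (y * Complex.I * (l x : ℂ))) α) := h1
    rw [h2, ← kdim_eq_vd, kdim_unitary]
    · intro x
      have h3 : (y : ℂ) * Complex.I * (l x : ℂ) = ((y * l x : ℝ) : ℂ) * Complex.I := by
        push_cast; ring
      rw [h3, Complex.norm_exp_ofReal_mul_I]
    · intro x z
      rw [← Complex.exp_add, hl]
      congr 1
      push_cast; ring
  have hone : a 1 ∈ locus A (kdim α) := by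
    rw [← locus_closed A hA (kdim α)]
    intro f hf
    rw [aeval_ev]
    have hd : Differentiable ℂ (fun w => eval (a w) f) := by
      apply differentiable_eval
      intro i
      simp only [a]
      fun_prop
    have hz : ∀ y : ℝ, eval (a (y * Complex.I)) f = 0 := by
      intro y
      rw [← aeval_ev]
      exact hf _ (hI y)
    have h0 : (fun w => eval (a w) f) = 0 := by
      have hana : AnalyticOnNhd ℂ (fun w => eval (a w) f) Set.univ := fun w _ => hd.analyticAt w
      apply AnalyticOnNhd.eq_of_frequently_eq (z₀ := 0) hana analyticOnNhd_const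
      have htend : Filter.Tendsto (fun n : ℕ => ((1 / ((n : ℝ) + 1) : ℝ) : ℂ) * Complex.I)
          Filter.atTop (nhdsWithin (0 : ℂ) {0}ᶜ) := by
        rw [tendsto_nhdsWithin_iff]
        constructor
        · have h1 : Filter.Tendsto (fun n : ℕ => ((1 / ((n : ℝ) + 1) : ℝ) : ℂ)) Filter.atTop
              (nhds ((0 : ℝ) : ℂ)) :=
            (Complex.continuous_ofReal.tendsto 0).comp tendsto_one_div_add_atTop_nhds_zero_nat
          have h2 := h1.mul_const Complex.I
          simpa using h2
        · refine Filter.Eventually.of_forall fun n => ?_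
          have h3 : (1 / ((n : ℝ) + 1) : ℝ) ≠ 0 := by positivity
          simp only [Set.mem_compl_iff, Set.mem_singleton_iff, mul_eq_zero, Complex.I_ne_zero,
            or_false, Complex.ofReal_eq_zero]
          exact h3
      exact htend.frequently (Filter.Frequently.of_forall fun n => hz _)
    exact congrFun h0 1
  have h1 : kdim α ≤ vd (LinearMap.ker (lin A (a 1) : EE G Unit →ₗ[ℂ] EE G Unit)) := hone
  have h2 : a 1 = fun t : α.support => (Real.exp (l t) : ℂ) * α t := by
    funext t
    simp [a]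
  rw [h2, locus_eq α (fun x => (Real.exp (l x) : ℂ)), ← kdim_eq_vd] at h1
  exact h1

theorem sm_sm (c d : G → ℂ) (α : G →₀ ℂ) : sm c (sm d α) = sm (fun x => c x * d x) α := by
  ext x
  rw [sm_apply, sm_apply, sm_apply, mul_assoc]

theorem kdim_real (l : G → ℝ) (hl : ∀ x y, l (x * y) = l x + l y) (α : G →₀ ℂ) :
    kdim (sm (fun x => (Real.exp (l x) : ℂ)) α) = kdim α := by
  apply le_antisymm
  · have h1 := kdim_le_real (fun x => - l x) (fun x y => by rw [hl]; ring)
      (sm (fun x => (Real.exp (l x) : ℂ)) α)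
    rw [sm_sm] at h1
    have h2 : sm (fun x => (Real.exp (- l x) : ℂ) * (Real.exp (l x) : ℂ)) α = α := by
      ext x
      rw [sm_apply]
      have : (Real.exp (- l x) : ℂ) * (Real.exp (l x) : ℂ) = 1 := by
        rw [← Complex.ofReal_mul, ← Real.exp_add]; simp
      rw [this, one_mul]
    rw [h2] at h1
    exact h1
  · exact kdim_le_real l hl α

/-- Twisting by a complex character does not change the kernel dimension. -/
theorem kdim_char (c : G → ℂ) (hne : ∀ x, c x ≠ 0) (hm : ∀ x y, c (x * y) = c x * c y)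
    (α : G →₀ ℂ) : kdim (sm c α) = kdim α := by
  have h1 : sm c α = sm (fun x => (Real.exp (Real.log ‖c x‖) : ℂ))
      (sm (fun x => c x / (‖c x‖ : ℂ)) α) := by
    rw [sm_sm]
    ext x
    rw [sm_apply, sm_apply, Real.exp_log (norm_pos_iff.2 (hne x))]
    have : (‖c x‖ : ℂ) ≠ 0 := by
      rw [Complex.ofReal_ne_zero]; exact norm_ne_zero_iff.2 (hne x)
    field_simp
  rw [h1, kdim_real, kdim_unitary]
  · intro x
    rw [norm_div, Complex.norm_real, norm_norm, div_self (norm_ne_zero_iff.2 (hne x))]
  · intro x y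
    rw [hm, norm_mul]
    push_cast
    rw [mul_div_mul_comm]
  · intro x y
    rw [hm, norm_mul, Real.log_mul (norm_ne_zero_iff.2 (hne x)) (norm_ne_zero_iff.2 (hne y))]

/-- Passing to the face of a real valued homomorphism. -/
theorem kdim_face_real (l : G → ℝ) (hl : ∀ x y, l (x * y) = l x + l y) (α : G →₀ ℂ) (m : ℝ)
    (hm : ∀ t ∈ α.support, m ≤ l t) :
    kdim α ≤ kdim (sm (fun x => if l x = m then 1 else 0) α) := by
  classical
  set A : α.support → EE G Unit →L[ℂ] EE G Unit := fun t => Ltr (t : G) with hAdef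
  have hA : ∀ i, Eqv (A i) := fun i => elem_eqv _ _ _
  let a : ℕ → α.support → ℂ := fun n t => (Real.exp (- n * (l t - m)) : ℂ) * α t
  let b : α.support → ℂ := fun t => (if l t = m then 1 else 0 : ℂ) * α t
  have hI : ∀ n : ℕ, a n ∈ locus A (kdim α) := by
    intro n
    change kdim α ≤ vd (LinearMap.ker (lin A (a n) : EE G Unit →ₗ[ℂ] EE G Unit))
    have h2 : lin A (a n) = (Real.exp (n * m) : ℂ) • cop (sm (fun x => (Real.exp (- n * l x) : ℂ)) α) := by
      have h1 := locus_eq α (fun x => (Real.exp (n * m) : ℂ) * (Real.exp (- n * l x) : ℂ))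
      have h3 : a n = fun t : α.support =>
          (Real.exp (n * m) : ℂ) * (Real.exp (- n * l t) : ℂ) * α t := by
        funext t
        simp only [a]
        rw [← Complex.ofReal_mul, ← Real.exp_add]
        congr 3
        ring
      rw [h3, h1, ← map_smul]
      congr 1
      ext x
      rw [Finsupp.smul_apply, sm_apply, sm_apply, smul_eq_mul, mul_assoc]
    rw [h2]
    have h3 : LinearMap.ker ((Real.exp (n * m) : ℂ) •
        cop (sm (fun x => (Real.exp (- n * l x) : ℂ)) α) : EE G Unit →L[ℂ] EE G Unit).toLinearMap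
        = LinearMap.ker (cop (sm (fun x => (Real.exp (- n * l x) : ℂ)) α) :
          EE G Unit →ₗ[ℂ] EE G Unit) := by
      ext f
      simp only [LinearMap.mem_ker]
      change (Real.exp (n * m) : ℂ) • (cop (sm (fun x => (Real.exp (- n * l x) : ℂ)) α) f) = 0 ↔ _
      rw [smul_eq_zero]
      have : (Real.exp (n * m) : ℂ) ≠ 0 := by
        rw [Complex.ofReal_ne_zero]; exact (Real.exp_pos _).ne'
      constructor
      · rintro (h | h)
        · exact absurd h this
        · exact h
      · intro h; exact Or.inr h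
    have h4 := kdim_real (fun x => - n * l x) (fun x y => by rw [hl]; ring) α
    rw [← h4, kdim_eq_vd]
    rw [h3]
  have hlim : Filter.Tendsto a Filter.atTop (nhds b) := by
    rw [tendsto_pi_nhds]
    intro t
    simp only [a, b]
    by_cases h : l t = m
    · rw [if_pos h, h]
      simp
    · rw [if_neg h, zero_mul]
      have h1 : 0 < l t - m := by
        have := hm t t.2
        exact sub_pos.2 (lt_of_le_of_ne this (Ne.symm h))
      have h2 : Filter.Tendsto (fun n : ℕ => Real.exp (- n * (l t - m))) Filter.atTop (nhds 0) := by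
        apply Real.tendsto_exp_atBot.comp
        have h3 : Filter.Tendsto (fun n : ℕ => (n : ℝ) * (l t - m)) Filter.atTop Filter.atTop :=
          Filter.Tendsto.atTop_mul_const h1 tendsto_natCast_atTop_atTop
        have h4 := Filter.tendsto_neg_atTop_atBot.comp h3
        refine h4.congr fun n => ?_
        simp
      have h5 : Filter.Tendsto (fun n : ℕ => ((Real.exp (- n * (l t - m)) : ℝ) : ℂ)) Filter.atTop
          (nhds ((0 : ℝ) : ℂ)) := (Complex.continuous_ofReal.tendsto 0).comp h2
      have h6 := h5.mul_const (α t)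
      simpa using h6
  have hb : b ∈ locus A (kdim α) := by
    rw [← locus_closed A hA (kdim α)]
    intro f hf
    rw [aeval_ev]
    have hcont : Continuous (fun p : α.support → ℂ => eval p f) := MvPolynomial.continuous_eval f
    have h1 := (hcont.tendsto b).comp hlim
    have h2 : (fun p : α.support → ℂ => eval p f) ∘ a = fun _ => 0 := by
      funext n
      change eval (a n) f = 0
      rw [← aeval_ev]
      exact hf _ (hI n)
    rw [h2] at h1
    exact (tendsto_nhds_unique h1 tendsto_const_nhds)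
  have h1 : kdim α ≤ vd (LinearMap.ker (lin A b : EE G Unit →ₗ[ℂ] EE G Unit)) := hb
  rw [kdim_eq_vd (sm _ α), ← locus_eq α (fun x => if l x = m then 1 else 0)]
  exact h1

end

end Pool.Agent.NH47.AZ
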