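import Pool.Agent.NH47.AZ.Loc

set_option autoImplicit false
set_option linter.unusedSectionVars false

open scoped ENNReal

/-! The kernel dimension and the number of cosets. -/

namespace Pool.Agent.NH47.AZ

open W649.ZL

universe u v w

section
variable {X : Type u} {Y : Type v}

theorem memlp_ex (φ : X → Y) (hφ : Function.Injective φ) (f : lp (fun _ : X => ℂ) 2) :
    Memℓp (Function.extend φ (f : X → ℂ) 0) 2 := by
  rw [memlp_two_iff]
  have h := (memlp_two_iff _).1 f.2
  refine (hφ.summable_iff (fun y hy => ?_)).1 ?_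
  · rw [Function.extend_apply' _ _ _ (by rintro ⟨x, hx⟩; exact hy ⟨x, hx⟩)]
    simp
  · refine h.congr fun x => ?_
    change _ = ‖Function.extend φ (f : X → ℂ) 0 (φ x)‖ ^ 2
    rw [hφ.extend_apply]

/-- extension by zero along an injective map -/
noncomputable def exF (φ : X → Y) (hφ : Function.Injective φ) (f : lp (fun _ : X => ℂ) 2) :
    lp (fun _ : Y => ℂ) 2 := ⟨Function.extend φ (f : X → ℂ) 0, memlp_ex φ hφ f⟩

theorem exF_apply (φ : X → Y) (hφ : Function.Injective φ) (f : lp (fun _ : X => ℂ) 2) (x : X) :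
    exF φ hφ f (φ x) = f x := hφ.extend_apply _ _ _

theorem exF_not (φ : X → Y) (hφ : Function.Injective φ) (f : lp (fun _ : X => ℂ) 2) (y : Y)
    (hy : y ∉ Set.range φ) : exF φ hφ f y = 0 :=
  Function.extend_apply' _ _ _ (by rintro ⟨x, hx⟩; exact hy ⟨x, hx⟩)

theorem norm_sq_lp {Z : Type w} (f : lp (fun _ : Z => ℂ) 2) : ‖f‖ ^ 2 = ∑' i, ‖f i‖ ^ 2 := by
  have h := lp.norm_rpow_eq_tsum (p := 2) (by norm_num) f
  simpa using h

theorem norm_exF (φ : X → Y) (hφ : Function.Injective φ) (f : lp (fun _ : X => ℂ) 2) :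
    ‖exF φ hφ f‖ = ‖f‖ := by
  have h : ‖exF φ hφ f‖ ^ 2 = ‖f‖ ^ 2 := by
    rw [norm_sq_lp, norm_sq_lp]
    rw [← hφ.tsum_eq]
    · exact tsum_congr fun x => by rw [exF_apply]
    · intro y hy
      by_contra hne
      apply hy
      change ‖exF φ hφ f y‖ ^ 2 = 0
      rw [exF_not φ hφ f y hne]; simp
  exact (sq_eq_sq₀ (norm_nonneg _) (norm_nonneg _)).1 h

theorem exF_add (φ : X → Y) (hφ : Function.Injective φ) (f g : lp (fun _ : X => ℂ) 2) :
    exF φ hφ (f + g) = exF φ hφ f + exF φ hφ g := by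
  apply lp.ext
  funext y
  rw [lp.coeFn_add, Pi.add_apply]
  by_cases hy : y ∈ Set.range φ
  · obtain ⟨x, rfl⟩ := hy
    rw [exF_apply, exF_apply, exF_apply]; rfl
  · rw [exF_not _ _ _ _ hy, exF_not _ _ _ _ hy, exF_not _ _ _ _ hy, add_zero]

theorem exF_smul (φ : X → Y) (hφ : Function.Injective φ) (c : ℂ) (f : lp (fun _ : X => ℂ) 2) :
    exF φ hφ (c • f) = c • exF φ hφ f := by
  apply lp.ext
  funext y
  rw [lp.coeFn_smul, Pi.smul_apply]
  by_cases hy : y ∈ Set.range φ
  · obtain ⟨x, rfl⟩ := hy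
    rw [exF_apply, exF_apply]; rfl
  · rw [exF_not _ _ _ _ hy, exF_not _ _ _ _ hy, smul_zero]

/-- extension by zero, as a continuous linear map -/
noncomputable def ex (φ : X → Y) (hφ : Function.Injective φ) :
    lp (fun _ : X => ℂ) 2 →L[ℂ] lp (fun _ : Y => ℂ) 2 :=
  LinearMap.mkContinuous
    { toFun := exF φ hφ
      map_add' := exF_add φ hφ
      map_smul' := exF_smul φ hφ } 1 (fun f => by rw [one_mul]; exact (norm_exF φ hφ f).le)

theorem ex_apply (φ : X → Y) (hφ : Function.Injective φ) (f : lp (fun _ : X => ℂ) 2) (x : X) :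
    ex φ hφ f (φ x) = f x := exF_apply φ hφ f x

theorem ex_not (φ : X → Y) (hφ : Function.Injective φ) (f : lp (fun _ : X => ℂ) 2) (y : Y)
    (hy : y ∉ Set.range φ) : ex φ hφ f y = 0 := exF_not φ hφ f y hy

theorem norm_ex (φ : X → Y) (hφ : Function.Injective φ) (f : lp (fun _ : X => ℂ) 2) :
    ‖ex φ hφ f‖ = ‖f‖ := norm_exF φ hφ f

theorem memlp_rs (φ : X → Y) (hφ : Function.Injective φ) (f : lp (fun _ : Y => ℂ) 2) :
    Memℓp (fun x => f (φ x)) 2 := by
  rw [memlp_two_iff]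
  exact ((memlp_two_iff _).1 f.2).comp_injective hφ

/-- restriction along an injective map -/
noncomputable def rs (φ : X → Y) (hφ : Function.Injective φ) :
    lp (fun _ : Y => ℂ) 2 →L[ℂ] lp (fun _ : X => ℂ) 2 :=
  LinearMap.mkContinuous
    { toFun := fun f => ⟨fun x => f (φ x), memlp_rs φ hφ f⟩
      map_add' := fun f g => rfl
      map_smul' := fun c f => rfl } 1 (fun f => by
        rw [one_mul]
        have h : ‖(⟨fun x => f (φ x), memlp_rs φ hφ f⟩ : lp (fun _ : X => ℂ) 2)‖ ^ 2 ≤ ‖f‖ ^ 2 := by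
          rw [norm_sq_lp, norm_sq_lp]
          exact tsum_comp_le_tsum_of_inj ((memlp_two_iff _).1 f.2) (fun _ => sq_nonneg _) hφ
        exact (sq_le_sq₀ (norm_nonneg _) (norm_nonneg _)).1 h)

theorem rs_apply (φ : X → Y) (hφ : Function.Injective φ) (f : lp (fun _ : Y => ℂ) 2) (x : X) :
    rs φ hφ f x = f (φ x) := rfl

theorem ex_rs (φ : X → Y) (hφ : Function.Injective φ) (f : lp (fun _ : Y => ℂ) 2)
    (h : ∀ y, f y ≠ 0 → y ∈ Set.range φ) : ex φ hφ (rs φ hφ f) = f := by
  apply lp.ext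
  funext y
  by_cases hy : y ∈ Set.range φ
  · obtain ⟨x, rfl⟩ := hy
    rw [ex_apply, rs_apply]
  · rw [ex_not _ _ _ _ hy]
    by_contra hne
    exact hy (h y (Ne.symm hne))

end

section
variable {G : Type u} [Group G] (H : Subgroup G) {I : Type v} {J : Type w}

/-- the coset representatives are in different left cosets -/
def Dist (c : I → G) : Prop := ∀ i j, (c i)⁻¹ * c j ∈ H → i = j

/-- the points of the cosets -/
def pt (c : I → G) : H × I → G × Unit := fun p => (c p.2 * p.1, ())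

theorem pt_injective (c : I → G) (hc : Dist H c) : Function.Injective (pt H c) := by
  rintro ⟨h, i⟩ ⟨k, j⟩ hh
  simp only [pt, Prod.mk.injEq, and_true] at hh
  have h1 : (c i)⁻¹ * c j = h * (k : G)⁻¹ := by
    rw [inv_mul_eq_iff_eq_mul, ← mul_assoc, hh, mul_inv_cancel_right]
  have h2 : i = j := hc i j (by rw [h1]; exact H.mul_mem h.2 (H.inv_mem k.2))
  subst h2
  have h3 : (h : G) = k := mul_left_cancel hh
  rw [Subtype.ext h3]

theorem mem_range_pt (c : I → G) (y : G × Unit) :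
    y ∈ Set.range (pt H c) ↔ ∃ i, (c i)⁻¹ * y.1 ∈ H := by
  constructor
  · rintro ⟨⟨h, i⟩, rfl⟩
    exact ⟨i, by simp [pt]⟩
  · rintro ⟨i, hi⟩
    exact ⟨(⟨_, hi⟩, i), by simp [pt]⟩

theorem tr_ex (c : I → G) (hc : Dist H c) (k : H) (f : EE H I) :
    ex (pt H c) (pt_injective H c hc) (tr k f) = tr (k : G) (ex (pt H c) (pt_injective H c hc) f) := by
  apply lp.ext
  funext y
  by_cases hy : y ∈ Set.range (pt H c)
  · obtain ⟨⟨h, i⟩, rfl⟩ := hy
    rw [ex_apply, tr_apply, tr_apply]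
    have h1 : (((pt H c (h, i)).1 * (k : G), (pt H c (h, i)).2) : G × Unit) = pt H c (h * k, i) := by
      simp [pt, mul_assoc]
    rw [h1, ex_apply]
  · rw [ex_not _ _ _ _ hy, tr_apply, ex_not]
    intro hy2
    apply hy
    rw [mem_range_pt] at hy2 ⊢
    obtain ⟨i, hi⟩ := hy2
    refine ⟨i, ?_⟩
    have h2 : (c i)⁻¹ * y.1 = (c i)⁻¹ * (y.1 * (k : G)) * (k : G)⁻¹ := by group
    rw [h2]
    exact H.mul_mem hi (H.inv_mem k.2)

theorem ex_dl (c : I → G) (hc : Dist H c) (i : I) :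
    ex (pt H c) (pt_injective H c hc) (dl ((1 : H), i)) = dl (c i, ()) := by
  apply lp.ext
  funext y
  by_cases hy : y ∈ Set.range (pt H c)
  · obtain ⟨p, rfl⟩ := hy
    rw [ex_apply]
    by_cases hp : p = ((1 : H), i)
    · subst hp
      rw [dl_apply_self]
      have : pt H c ((1 : H), i) = (c i, ()) := by simp [pt]
      rw [this, dl_apply_self]
    · rw [dl_apply_ne _ _ hp, dl_apply_ne]
      intro h
      apply hp
      apply pt_injective H c hc
      rw [h]; simp [pt]
  · rw [ex_not _ _ _ _ hy, dl_apply_ne]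
    intro h
    apply hy
    rw [h, mem_range_pt]
    exact ⟨i, by simp⟩

/-- convolution from cosets to cosets -/
noncomputable def TT (α : G →₀ ℂ) (c : I → G) (hc : Dist H c) (d : J → G) (hd : Dist H d) :
    EE H I →L[ℂ] EE H J :=
  (rs (pt H d) (pt_injective H d hd)).comp ((cop α).comp (ex (pt H c) (pt_injective H c hc)))

theorem TT_eqv (α : G →₀ ℂ) (c : I → G) (hc : Dist H c) (d : J → G) (hd : Dist H d) :
    Eqv (TT H α c hc d hd) := by
  intro k f
  unfold TT
  rw [ContinuousLinearMap.comp_apply, ContinuousLinearMap.comp_apply, tr_ex H c hc, cop_eqv]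
  apply lp.ext
  funext y
  obtain ⟨h, j⟩ := y
  rw [rs_apply, tr_apply, tr_apply]
  change _ = (rs (pt H d) (pt_injective H d hd)) _ (h * k, j)
  rw [rs_apply]
  have h1 : (((pt H d (h, j)).1 * (k : G), (pt H d (h, j)).2) : G × Unit) = pt H d (h * k, j) := by
    simp [pt, mul_assoc]
  rw [h1]
  rfl

theorem ex_TT (α : G →₀ ℂ) (c : I → G) (hc : Dist H c) (d : J → G) (hd : Dist H d)
    (hα : ∀ s ∈ α.support, ∀ i, ∃ j, (d j)⁻¹ * (s * c i) ∈ H) (f : EE H I) :
    ex (pt H d) (pt_injective H d hd) (TT H α c hc d hd f)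
      = cop α (ex (pt H c) (pt_injective H c hc) f) := by
  apply ex_rs
  rintro ⟨x, ⟨⟩⟩ hx
  change cop α (ex (pt H c) (pt_injective H c hc) f) (x, ()) ≠ 0 at hx
  rw [cop_apply] at hx
  obtain ⟨s, hs, hs2⟩ := Finset.exists_ne_zero_of_sum_ne_zero hx
  have h1 : (s⁻¹ * x, ()) ∈ Set.range (pt H c) := by
    by_contra hne
    apply hs2
    rw [ex_not _ _ _ _ hne, mul_zero]
  rw [mem_range_pt] at h1 ⊢
  obtain ⟨i, hi⟩ := h1
  obtain ⟨j, hj⟩ := hα s hs i
  refine ⟨j, ?_⟩
  have h2 : (d j)⁻¹ * x = (d j)⁻¹ * (s * c i) * ((c i)⁻¹ * (s⁻¹ * x)) := by group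
  change (d j)⁻¹ * x ∈ H
  rw [h2]
  exact H.mul_mem hj hi

/-- **Number of cosets and rank.** -/
theorem cosets [Fintype I] [Fintype J] (α : G →₀ ℂ) (c : I → G) (hc : Dist H c) (d : J → G)
    (hd : Dist H d) (hα : ∀ s ∈ α.support, ∀ i, ∃ j, (d j)⁻¹ * (s * c i) ∈ H)
    (hinj : ∀ f : EE G Unit, (∀ y, f y ≠ 0 → y ∈ Set.range (pt H c)) → cop α f = 0 → f = 0) :
    (Fintype.card I : ℝ) ≤ Fintype.card J * (1 - kdim α) := by
  set T := TT H α c hc d hd with hT
  have hTinj : Function.Injective T := by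
    rw [injective_iff_map_eq_zero]
    intro f hf
    have h1 := ex_TT H α c hc d hd hα f
    rw [← hT, hf, map_zero] at h1
    have h2 := hinj _ (fun y hy => by
      by_contra hne
      exact hy (ex_not _ _ f _ hne)) h1.symm
    apply lp.ext
    funext p
    rw [← ex_apply (pt H c) (pt_injective H c hc) f p, h2]
    rfl
  have h1 := ker_add_range T (TT_eqv H α c hc d hd)
  rw [vd_ker_of_injective T hTinj, zero_add] at h1
  set R : Submodule ℂ (EE G Unit) := LinearMap.range (cop α : EE G Unit →ₗ[ℂ] EE G Unit) with hR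
  set U : Submodule ℂ (EE H J) := LinearMap.range (T : EE H I →ₗ[ℂ] EE H J) with hU
  have h2 := ker_add_range (cop α) (cop_eqv α)
  rw [← kdim_eq_vd] at h2
  simp only [Fintype.card_unit, Nat.cast_one] at h2
  have h3 : vd R = 1 - Metric.infDist (dl ((1 : G), ()) : EE G Unit) (R : Set (EE G Unit)) ^ 2 := by
    rw [← vd_closure, vd_eq_infDist _ R.isClosed_topologicalClosure]
    simp only [Finset.univ_unique, PUnit.default_eq_unit, Finset.sum_singleton]
    rw [Submodule.topologicalClosure_coe, Metric.infDist_closure]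
  have h4 : vd U ≤ ∑ _j : J, (1 - Metric.infDist (dl ((1 : G), ()) : EE G Unit) (R : Set (EE G Unit)) ^ 2) := by
    rw [← vd_closure, vd_eq_infDist _ U.isClosed_topologicalClosure]
    refine Finset.sum_le_sum fun j _ => ?_
    rw [Submodule.topologicalClosure_coe, Metric.infDist_closure]
    have hne : (U : Set (EE H J)).Nonempty := ⟨0, U.zero_mem⟩
    have h5 : Metric.infDist (dl ((1 : G), ()) : EE G Unit) (R : Set (EE G Unit))
        ≤ Metric.infDist (dl ((1 : H), j)) (U : Set (EE H J)) := by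
      rw [Metric.le_infDist hne]
      rintro y ⟨f, rfl⟩
      have h6 : tr (d j) (cop α (ex (pt H c) (pt_injective H c hc) f)) ∈ (R : Set (EE G Unit)) := by
        rw [← cop_eqv]
        exact ⟨_, rfl⟩
      refine (Metric.infDist_le_dist_of_mem h6).trans (le_of_eq ?_)
      rw [dist_eq_norm, dist_eq_norm]
      have h7 : (dl ((1 : G), ()) : EE G Unit) = tr (d j) (dl (d j, ())) := by
        rw [tr_dl, mul_inv_cancel]
      have h8 : (dl ((1 : G), ()) : EE G Unit) - tr (d j) (cop α (ex (pt H c) (pt_injective H c hc) f))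
          = tr (d j) (ex (pt H d) (pt_injective H d hd) (dl ((1 : H), j) - T f)) := by
        rw [map_sub, ex_dl H d hd, hT, ex_TT H α c hc d hd hα]
        rw [h7]
        rfl
      rw [h8, norm_tr, norm_ex]
      rfl
    have h9 : 0 ≤ Metric.infDist (dl ((1 : G), ()) : EE G Unit) (R : Set (EE G Unit)) :=
      Metric.infDist_nonneg
    have h10 := pow_le_pow_left₀ h9 h5 2
    linarith
  rw [Finset.sum_const, nsmul_eq_mul, Finset.card_univ, ← h3] at h4
  have h5 : vd R = 1 - kdim α := by linarith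
  rw [h5] at h4
  linarith

end

end Pool.Agent.NH47.AZ
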