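import Pool.Agent.NH47.AZ.Char

set_option autoImplicit false
set_option linter.unusedSectionVars false

open scoped ENNReal

/-! Characters of subgroups, faces, and weighted spaces. -/

namespace Pool.Agent.NH47.AZ

open W649.ZL

universe u

section
variable {G : Type u} [Group G]

/-- translate by `t⁻¹` -/
noncomputable def trl (t : G) (α : G →₀ ℂ) : G →₀ ℂ := α.mapDomain (fun x => t⁻¹ * x)

theorem trl_apply (t : G) (α : G →₀ ℂ) (x : G) : trl t α x = α (t * x) := by
  have hinj : Function.Injective (fun x : G => t⁻¹ * x) := mul_right_injective t⁻¹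
  have hk : x = (fun x : G => t⁻¹ * x) (t * x) := by simp
  conv_lhs => rw [hk]
  exact Finsupp.mapDomain_apply hinj _ _

theorem kdim_trl (t : G) (α : G →₀ ℂ) : kdim (trl t α) = kdim α := kdim_translate t⁻¹ α

theorem trl_support (t : G) (α : G →₀ ℂ) (x : G) : x ∈ (trl t α).support ↔ t * x ∈ α.support := by
  rw [Finsupp.mem_support_iff, Finsupp.mem_support_iff, trl_apply]

/-- twisting by a function which is a character on a subgroup containing the translate of the
support -/
theorem kdim_twist (P : Subgroup G) (t : G) (c : G → ℂ) (hne : ∀ x ∈ P, c x ≠ 0)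
    (hm : ∀ x ∈ P, ∀ y ∈ P, c (x * y) = c x * c y) (α β : G →₀ ℂ)
    (hα : ∀ s ∈ α.support, t⁻¹ * s ∈ P) (hβ : ∀ s, β s = c (t⁻¹ * s) * α s) :
    kdim β = kdim α := by
  rw [← kdim_trl t α, ← kdim_trl t β]
  have h1 : ∀ x ∈ (trl t α).support, x ∈ P := by
    intro x hx
    have h2 := hα _ ((trl_support t α x).1 hx)
    rwa [inv_mul_cancel_left] at h2
  have h2 : ∀ x ∈ (trl t β).support, x ∈ P := by
    intro x hx
    apply h1
    rw [trl_support, Finsupp.mem_support_iff] at hx ⊢
    intro h0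
    apply hx
    rw [hβ, h0, mul_zero]
  rw [kdim_subgroup P _ h1, kdim_subgroup P _ h2]
  have h3 : res P (trl t β) = sm (fun x : P => c (x : G)) (res P (trl t α)) := by
    ext x
    rw [sm_apply, res_apply, res_apply, trl_apply, trl_apply, hβ, inv_mul_cancel_left]
  rw [h3]
  exact kdim_char _ (fun x => hne _ x.2) (fun x y => hm _ x.2 _ y.2) _

/-- faces -/
theorem kdim_face (P : Subgroup G) (t : G) (l : P → ℝ) (hl : ∀ x y, l (x * y) = l x + l y)
    (α β : G →₀ ℂ) (m : ℝ) (hα : ∀ s ∈ α.support, ∃ h : t⁻¹ * s ∈ P, m ≤ l ⟨_, h⟩)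
    (hβ : ∀ s, (∃ h : t⁻¹ * s ∈ P, l ⟨_, h⟩ = m) → β s = α s)
    (hβ' : ∀ s, (¬ ∃ h : t⁻¹ * s ∈ P, l ⟨_, h⟩ = m) → β s = 0) : kdim α ≤ kdim β := by
  classical
  rw [← kdim_trl t α, ← kdim_trl t β]
  have h1 : ∀ x ∈ (trl t α).support, x ∈ P := by
    intro x hx
    obtain ⟨h2, -⟩ := hα _ ((trl_support t α x).1 hx)
    rwa [inv_mul_cancel_left] at h2
  have h2 : ∀ x ∈ (trl t β).support, x ∈ P := by
    intro x hx
    apply h1
    rw [trl_support, Finsupp.mem_support_iff] at hx ⊢
    intro h0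
    apply hx
    by_cases h3 : ∃ h : t⁻¹ * (t * x) ∈ P, l ⟨_, h⟩ = m
    · rw [hβ _ h3, h0]
    · exact hβ' _ h3
  rw [kdim_subgroup P _ h1, kdim_subgroup P _ h2]
  have h3 : res P (trl t β) = sm (fun x : P => if l x = m then 1 else 0) (res P (trl t α)) := by
    ext x
    rw [sm_apply, res_apply, res_apply, trl_apply, trl_apply]
    have hx : t⁻¹ * (t * (x : G)) = x := inv_mul_cancel_left _ _
    by_cases h4 : l x = m
    · rw [if_pos h4, one_mul]
      refine hβ _ ⟨by rw [hx]; exact x.2, ?_⟩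
      have h5 : (⟨t⁻¹ * (t * (x : G)), by rw [hx]; exact x.2⟩ : P) = x := Subtype.ext hx
      rw [h5]; exact h4
    · rw [if_neg h4, zero_mul]
      refine hβ' _ ?_
      rintro ⟨h5, h6⟩
      apply h4
      have h7 : (⟨t⁻¹ * (t * (x : G)), h5⟩ : P) = x := Subtype.ext hx
      rw [h7] at h6; exact h6
  rw [h3]
  apply kdim_face_real l hl
  intro x hx
  rw [mem_res_support, trl_support] at hx
  obtain ⟨h4, h5⟩ := hα _ hx
  have h7 : (⟨t⁻¹ * (t * (x : G)), h4⟩ : P) = x := Subtype.ext (inv_mul_cancel_left _ _)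
  rw [h7] at h5; exact h5

theorem regular_iff_kdim (α : G →₀ ℂ) :
    (∀ f : G → ℂ, Memℓp f 2 → f ≠ 0 → ∃ g : G, ∑ k ∈ α.support, α k * f (k⁻¹ * g) ≠ 0)
      ↔ kdim α ≤ 0 := by
  rw [← injective_iff_kdim]
  exact regular_iff α

/-- weighted spaces -/
theorem weighted (α : G →₀ ℂ) (hα : kdim α ≤ 0) (t : G) (w : G → ℝ) (hw : ∀ x, 0 < w x)
    (hq : ∀ s ∈ α.support, ∃ c : ℝ, ∀ x, w (t⁻¹ * s * x) = c * w x) (h : G → ℂ) (h0 : h ≠ 0)
    (hs : Summable fun x => (w x * ‖h x‖) ^ 2) :
    ∃ g, ∑ k ∈ α.support, α k * h (k⁻¹ * g) ≠ 0 := by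
  classical
  by_contra hcon
  push Not at hcon
  -- the subgroup
  let P : Subgroup G :=
    { carrier := {k | ∀ x, w (k * x) = w k / w 1 * w x}
      one_mem' := by
        intro x
        rw [one_mul, div_self (hw 1).ne', one_mul]
      mul_mem' := by
        intro a b ha hb x
        have h1 := ha (b * x)
        rw [← mul_assoc] at h1
        rw [h1, hb x, ha b]
        have := (hw 1).ne'
        field_simp
      inv_mem' := by
        intro a ha x
        have h1 := ha (a⁻¹ * x)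
        rw [mul_inv_cancel_left] at h1
        have h2 := ha a⁻¹
        rw [mul_inv_cancel] at h2
        have h3 := (hw 1).ne'
        have h4 := (hw a).ne'
        rw [h1]
        have h5 : w a⁻¹ = w 1 * w 1 / w a := by
          rw [eq_div_iff h4]
          have h6 : w a / w 1 * w a⁻¹ * w 1 = w a * w a⁻¹ := by field_simp
          rw [mul_comm (w a⁻¹), ← h6, ← h2]
        rw [h5]
        field_simp }
  have hP : ∀ s ∈ α.support, t⁻¹ * s ∈ P := by
    intro s hs x
    obtain ⟨c, hc⟩ := hq s hs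
    have h1 := hc 1
    rw [mul_one] at h1
    rw [hc x, h1, mul_div_assoc, div_self (hw 1).ne', mul_one]
  let c : G → ℂ := fun x => ((w x / w 1 : ℝ) : ℂ)
  let β : G →₀ ℂ := sm (fun s => c (t⁻¹ * s)) α
  have hβ : kdim β = kdim α := by
    apply kdim_twist P t c _ _ α β hP (fun s => rfl)
    · intro x _
      simp only [c]
      rw [Complex.ofReal_ne_zero]
      exact (div_pos (hw x) (hw 1)).ne'
    · intro x hx y _
      simp only [c]
      rw [← Complex.ofReal_mul]
      congr 1
      rw [hx y]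
      ring
  have hreg := (regular_iff_kdim β).2 (by rw [hβ]; exact hα)
  let f : G → ℂ := fun x => (w x : ℂ) * h x
  obtain ⟨g, hg⟩ := hreg f (by
    rw [memlp2]
    refine hs.congr fun x => ?_
    rw [norm_mul, Complex.norm_real, Real.norm_of_nonneg (hw x).le]) (by
    intro hf
    apply h0
    funext x
    have h1 := congrFun hf x
    have h2 : (w x : ℂ) * h x = 0 := h1
    rcases mul_eq_zero.1 h2 with h3 | h3
    · exact absurd (Complex.ofReal_eq_zero.1 h3) (hw x).ne'
    · exact h3)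
  apply hg
  have key : ∑ k ∈ β.support, β k * f (k⁻¹ * g)
      = (w (t⁻¹ * g) : ℂ) * ∑ k ∈ α.support, α k * h (k⁻¹ * g) := by
    rw [Finset.mul_sum]
    rw [Finset.sum_subset (sm_support _ α) (by
      intro k _ hk
      rw [Finsupp.notMem_support_iff.1 hk, zero_mul])]
    refine Finset.sum_congr rfl fun k hk => ?_
    have h1 : β k = c (t⁻¹ * k) * α k := rfl
    rw [h1]
    have h2 := hP k hk (k⁻¹ * g)
    have h3 : t⁻¹ * k * (k⁻¹ * g) = t⁻¹ * g := by group
    rw [h3] at h2
    rw [h2]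
    simp only [c, f]
    push_cast
    ring
  rw [key, hcon g, mul_zero]

theorem sum_half_le (c : ℤ) (B : Finset ℤ) (hB : ∀ n ∈ B, c ≤ n) :
    ∑ n ∈ B, (1 / 2 : ℝ) ^ n ≤ (1 / 2 : ℝ) ^ c * 2 := by
  classical
  have h1 : ∑ n ∈ B, (1 / 2 : ℝ) ^ n = ∑ j ∈ B.image (fun n => (n - c).toNat),
      (1 / 2 : ℝ) ^ c * (1 / 2 : ℝ) ^ j := by
    rw [Finset.sum_image]
    · refine Finset.sum_congr rfl fun n hn => ?_
      have h2 := hB n hn
      rw [← zpow_natCast, ← zpow_add₀ (by norm_num : (1 / 2 : ℝ) ≠ 0)]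
      congr 1
      rw [Int.toNat_of_nonneg (by omega)]
      ring
    · intro a ha b hb hab
      have h2 := hB a ha
      have h3 := hB b hb
      simp only at hab
      omega
  rw [h1, ← Finset.mul_sum]
  have h2 : ∑ j ∈ B.image (fun n => (n - c).toNat), (1 / 2 : ℝ) ^ j ≤ 2 := by
    have h3 := Summable.sum_le_tsum (B.image (fun n => (n - c).toNat))
      (fun j _ => by positivity) (summable_geometric_two)
    rw [tsum_geometric_two] at h3
    exact h3
  exact mul_le_mul_of_nonneg_left h2 (by positivity)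

/-- functions on half spaces -/
theorem half (α : G →₀ ℂ) (hα : kdim α ≤ 0) (e : G → ℤ) (he : ∀ x y, e (x * y) = e x + e y)
    (h : G → ℂ) (h0 : h ≠ 0) (c : ℤ) (hc : ∀ x, e x < c → h x = 0) (C R : ℝ) (hR : 0 < R)
    (hb : ∀ (n : ℤ) (A : Finset G), (∀ x ∈ A, e x = n) → ∑ x ∈ A, ‖h x‖ ^ 2 ≤ C * R ^ n) :
    ∃ g, ∑ k ∈ α.support, α k * h (k⁻¹ * g) ≠ 0 := by
  classical
  have hq : (0 : ℝ) < 1 / (2 * R) := by positivity
  set q : ℝ := 1 / (2 * R) with hqdef
  have hqR : q * R = 1 / 2 := by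
    rw [hqdef]; field_simp
  have hC : 0 ≤ C := by
    have h1 := hb 0 ∅ (by simp)
    simpa using h1
  apply weighted α hα 1 (fun x => Real.sqrt q ^ (e x)) (fun x => by positivity) _ h h0
  · have h1 : (fun x => (Real.sqrt q ^ (e x) * ‖h x‖) ^ 2) = fun x => q ^ (e x) * ‖h x‖ ^ 2 := by
      funext x
      rw [mul_pow]
      congr 1
      rw [← zpow_natCast, zpow_comm, zpow_natCast, Real.sq_sqrt hq.le]
    rw [h1]
    apply summable_of_sum_le (c := C * ((1 / 2 : ℝ) ^ c * 2))
    · intro x; positivity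
    · intro A
      have h2 : ∑ x ∈ A, q ^ (e x) * ‖h x‖ ^ 2
          = ∑ x ∈ A.filter (fun x => c ≤ e x), q ^ (e x) * ‖h x‖ ^ 2 := by
        symm
        apply Finset.sum_subset (Finset.filter_subset _ _)
        intro x hx hx'
        have h3 : e x < c := by
          by_contra hcon
          exact hx' (Finset.mem_filter.2 ⟨hx, not_lt.1 hcon⟩)
        rw [hc x h3]; simp
      rw [h2]
      set A' := A.filter (fun x => c ≤ e x) with hA'
      rw [← Finset.sum_fiberwise_of_maps_to (s := A') (t := A'.image e) (g := e)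
        (fun x hx => Finset.mem_image_of_mem _ hx)]
      calc ∑ n ∈ A'.image e, ∑ x ∈ A'.filter (fun x => e x = n), q ^ (e x) * ‖h x‖ ^ 2
          ≤ ∑ n ∈ A'.image e, C * (1 / 2 : ℝ) ^ n := by
            apply Finset.sum_le_sum
            intro n _
            have h3 : ∑ x ∈ A'.filter (fun x => e x = n), q ^ (e x) * ‖h x‖ ^ 2
                = q ^ n * ∑ x ∈ A'.filter (fun x => e x = n), ‖h x‖ ^ 2 := by
              rw [Finset.mul_sum]
              refine Finset.sum_congr rfl fun x hx => ?_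
              rw [(Finset.mem_filter.1 hx).2]
            rw [h3]
            have h4 := hb n (A'.filter (fun x => e x = n)) (fun x hx => (Finset.mem_filter.1 hx).2)
            calc q ^ n * ∑ x ∈ A'.filter (fun x => e x = n), ‖h x‖ ^ 2
                ≤ q ^ n * (C * R ^ n) := mul_le_mul_of_nonneg_left h4 (by positivity)
              _ = C * (1 / 2 : ℝ) ^ n := by
                rw [← hqR, mul_zpow]; ring
        _ = C * ∑ n ∈ A'.image e, (1 / 2 : ℝ) ^ n := by rw [Finset.mul_sum]
        _ ≤ C * ((1 / 2 : ℝ) ^ c * 2) := by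
            apply mul_le_mul_of_nonneg_left _ hC
            apply sum_half_le
            intro n hn
            obtain ⟨x, hx, rfl⟩ := Finset.mem_image.1 hn
            exact (Finset.mem_filter.1 hx).2
  · intro s _
    refine ⟨Real.sqrt q ^ (e s), fun x => ?_⟩
    rw [inv_one, one_mul, he, zpow_add₀ (Real.sqrt_pos.2 hq).ne']

end

end Pool.Agent.NH47.AZ
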