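import Pool.Agent.NH47.AZ.Coset
import Pool.Agent.NH47.AZ.Weight

set_option autoImplicit false
set_option linter.unusedSectionVars false

open scoped ENNReal

/-! The kernel dimension and functions supported on finitely many cosets. -/

namespace Pool.Agent.NH47.AZ

open W649.ZL

universe u v w

section
variable {G : Type u} [Group G] (H : Subgroup G)

/-- elements of the kernel supported on the cosets in `Y` -/
def kernOn (Y : Finset (G ⧸ H)) (α : G →₀ ℂ) : Set (lp (fun _ : G => ℂ) 2) :=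
  {f | (∀ g : G, ∑ k ∈ α.support, α k * f (k⁻¹ * g) = 0) ∧
    ∀ x : G, f x ≠ 0 → (QuotientGroup.mk x : G ⧸ H) ∈ Y}

open Classical in
/-- relative kernel dimension -/
noncomputable def kdimOn (Y : Finset (G ⧸ H)) (α : G →₀ ℂ) : ℝ :=
  ∑ y ∈ Y, (1 - Metric.infDist (lp.single 2 (Quotient.out y) (1 : ℂ)) (kernOn H Y α) ^ 2)

theorem toU_single' [DecidableEq G] (g : G) :
    toU (lp.single 2 g (1 : ℂ)) = (dl (g, ()) : EE G Unit) := by
  ext ⟨x, ⟨⟩⟩
  rw [toU_apply]
  by_cases hx : x = g
  · subst hx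
    rw [dl_apply_self, lp.coeFn_single, Pi.single_eq_same]
  · rw [dl_apply_ne, lp.coeFn_single, Pi.single_eq_of_ne hx]
    intro h; exact hx (congrArg Prod.fst h)

/-- coset representatives -/
noncomputable def rep (Y : Finset (G ⧸ H)) : Y → G := fun y => Quotient.out y.1

theorem mk_rep (Y : Finset (G ⧸ H)) (y : Y) : (QuotientGroup.mk (rep H Y y) : G ⧸ H) = y.1 :=
  Quotient.out_eq _

theorem rep_dist (Y : Finset (G ⧸ H)) : Dist H (rep H Y) := by
  intro i j h
  have h1 : (QuotientGroup.mk (rep H Y i) : G ⧸ H) = QuotientGroup.mk (rep H Y j) :=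
    QuotientGroup.eq.2 h
  rw [mk_rep, mk_rep] at h1
  exact Subtype.ext h1

theorem mem_range_rep (Y : Finset (G ⧸ H)) (y : G × Unit) :
    y ∈ Set.range (pt H (rep H Y)) ↔ (QuotientGroup.mk y.1 : G ⧸ H) ∈ Y := by
  rw [mem_range_pt]
  constructor
  · rintro ⟨i, hi⟩
    have h1 : (QuotientGroup.mk (rep H Y i) : G ⧸ H) = QuotientGroup.mk y.1 :=
      QuotientGroup.eq.2 hi
    rw [mk_rep] at h1
    rw [← h1]; exact i.2
  · intro h
    refine ⟨⟨_, h⟩, ?_⟩
    apply QuotientGroup.eq.1
    rw [mk_rep]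

/-- the product of a finite set and a finite set of cosets -/
noncomputable def prodY (S : Finset G) (Y : Finset (G ⧸ H)) : Finset (G ⧸ H) := by
  classical exact Finset.image₂ (fun s y => s • y) S Y

theorem mem_prodY (S : Finset G) (Y : Finset (G ⧸ H)) (z : G ⧸ H) :
    z ∈ prodY H S Y ↔ ∃ s ∈ S, ∃ y ∈ Y, s • y = z := by
  classical
  unfold prodY
  rw [Finset.mem_image₂]

theorem prodY_rep (α : G →₀ ℂ) (Y : Finset (G ⧸ H)) : ∀ s ∈ α.support, ∀ i : Y,
    ∃ j : prodY H α.support Y, (rep H (prodY H α.support Y) j)⁻¹ * (s * rep H Y i) ∈ H := by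
  intro s hs i
  refine ⟨⟨s • i.1, (mem_prodY H _ _ _).2 ⟨s, hs, i.1, i.2, rfl⟩⟩, ?_⟩
  apply QuotientGroup.eq.1
  rw [mk_rep]
  change s • i.1 = QuotientGroup.mk (s * rep H Y i)
  conv_lhs => rw [← mk_rep H Y i]
  rfl

/-- the operator from the cosets in `Y` -/
noncomputable def TY (Y : Finset (G ⧸ H)) (α : G →₀ ℂ) : EE H Y →L[ℂ] EE H (prodY H α.support Y) :=
  TT H α (rep H Y) (rep_dist H Y) (rep H (prodY H α.support Y)) (rep_dist H _)

theorem image_ker (Y : Finset (G ⧸ H)) (α : G →₀ ℂ) :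
    ex (pt H (rep H Y)) (pt_injective H _ (rep_dist H Y)) ''
      (LinearMap.ker (TY H Y α : EE H Y →ₗ[ℂ] EE H (prodY H α.support Y)) : Set (EE H Y))
      = toU '' kernOn H Y α := by
  ext F
  constructor
  · rintro ⟨f, hf, rfl⟩
    have hf' : TY H Y α f = 0 := hf
    have h1 := ex_TT H α (rep H Y) (rep_dist H Y) (rep H (prodY H α.support Y)) (rep_dist H _)
      (prodY_rep H α Y) f
    change ex _ _ (TY H Y α f) = _ at h1
    rw [hf', map_zero] at h1
    obtain ⟨F0, hF0⟩ := toU_surj (ex (pt H (rep H Y)) (pt_injective H _ (rep_dist H Y)) f)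
    refine ⟨F0, ⟨?_, ?_⟩, hF0⟩
    · intro g
      have h2 := cop_apply α (toU F0) g
      rw [hF0, ← h1] at h2
      have h3 : (0 : ℂ) = _ := h2
      rw [h3]
      refine Finset.sum_congr rfl fun k _ => ?_
      rw [← hF0]; rfl
    · intro x hx
      have h2 : toU F0 (x, ()) ≠ 0 := hx
      rw [hF0] at h2
      have h3 := (mem_range_rep H Y (x, ())).1 (by
        by_contra hne
        exact h2 (ex_not _ _ f _ hne))
      exact h3
  · rintro ⟨F0, ⟨hF1, hF2⟩, rfl⟩
    have hsupp : ∀ y, toU F0 y ≠ 0 → y ∈ Set.range (pt H (rep H Y)) := by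
      rintro ⟨x, ⟨⟩⟩ hx
      rw [mem_range_rep]
      exact hF2 x hx
    refine ⟨rs (pt H (rep H Y)) (pt_injective H _ (rep_dist H Y)) (toU F0), ?_,
      ex_rs _ _ _ hsupp⟩
    change TY H Y α _ = 0
    have h1 := ex_TT H α (rep H Y) (rep_dist H Y) (rep H (prodY H α.support Y)) (rep_dist H _)
      (prodY_rep H α Y) (rs (pt H (rep H Y)) (pt_injective H _ (rep_dist H Y)) (toU F0))
    rw [ex_rs _ _ _ hsupp] at h1
    have h2 : cop α (toU F0) = 0 := by
      ext ⟨x, ⟨⟩⟩
      rw [cop_apply]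
      exact hF1 x
    rw [h2] at h1
    have h3 : ‖TY H Y α (rs (pt H (rep H Y)) (pt_injective H _ (rep_dist H Y)) (toU F0))‖ = 0 := by
      rw [← norm_ex (pt H (rep H (prodY H α.support Y))) (pt_injective H _ (rep_dist H _))]
      change ‖ex _ _ (TT H α (rep H Y) _ (rep H (prodY H α.support Y)) _ _)‖ = 0
      rw [h1, norm_zero]
    exact norm_eq_zero.1 h3

theorem kdimOn_eq (Y : Finset (G ⧸ H)) (α : G →₀ ℂ) : kdimOn H Y α
    = vd (LinearMap.ker (TY H Y α : EE H Y →ₗ[ℂ] EE H (prodY H α.support Y))) := by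
  classical
  rw [vd_eq_infDist _ (ContinuousLinearMap.isClosed_ker _)]
  unfold kdimOn
  rw [← Finset.sum_coe_sort Y]
  refine Finset.sum_congr rfl fun y _ => ?_
  have h1 : Metric.infDist (lp.single 2 (Quotient.out y.1) (1 : ℂ)) (kernOn H Y α)
      = Metric.infDist (dl ((1 : H), y)) (LinearMap.ker
        (TY H Y α : EE H Y →ₗ[ℂ] EE H (prodY H α.support Y)) : Set (EE H Y)) := by
    have hiso : Isometry (ex (pt H (rep H Y)) (pt_injective H _ (rep_dist H Y))) := by
      apply Isometry.of_dist_eq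
      intro f g
      rw [dist_eq_norm, dist_eq_norm, ← map_sub, norm_ex]
    rw [← Metric.infDist_image hiso, image_ker, ex_dl H _ (rep_dist H Y)]
    have h2 : (dl (rep H Y y, ()) : EE G Unit) = toU (lp.single 2 (Quotient.out y.1) (1 : ℂ)) :=
      (toU_single' _).symm
    rw [h2, Metric.infDist_image isometry_toU]
  rw [h1]

theorem vd_range_T (Y : Finset (G ⧸ H)) (α : G →₀ ℂ) :
    kdimOn H Y α + vd (LinearMap.range (TY H Y α : EE H Y →ₗ[ℂ] EE H (prodY H α.support Y)))
      = Y.card := by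
  rw [kdimOn_eq]
  have h := ker_add_range (TY H Y α) (TT_eqv H α _ _ _ _)
  rw [h, Fintype.card_coe]

/-- lower bound -/
theorem lower_bd (Y : Finset (G ⧸ H)) (α : G →₀ ℂ) :
    (Y.card : ℝ) - kdimOn H Y α ≤ (prodY H α.support Y).card * (1 - kdim α) := by
  have h1 := vd_range_T H Y α
  set T := TY H Y α with hT
  set R : Submodule ℂ (EE G Unit) := LinearMap.range (cop α : EE G Unit →ₗ[ℂ] EE G Unit) with hR
  set U : Submodule ℂ (EE H (prodY H α.support Y)) :=
    LinearMap.range (T : EE H Y →ₗ[ℂ] EE H (prodY H α.support Y)) with hU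
  have h2 := ker_add_range (cop α) (cop_eqv α)
  rw [← kdim_eq_vd] at h2
  simp only [Fintype.card_unit, Nat.cast_one] at h2
  have h3 : vd R = 1 - Metric.infDist (dl ((1 : G), ()) : EE G Unit) (R : Set (EE G Unit)) ^ 2 := by
    rw [← vd_closure, vd_eq_infDist _ R.isClosed_topologicalClosure]
    simp only [Finset.univ_unique, PUnit.default_eq_unit, Finset.sum_singleton]
    rw [Submodule.topologicalClosure_coe, Metric.infDist_closure]
  have h4 : vd U ≤ ∑ _j : prodY H α.support Y,
      (1 - Metric.infDist (dl ((1 : G), ()) : EE G Unit) (R : Set (EE G Unit)) ^ 2) := by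
    rw [← vd_closure, vd_eq_infDist _ U.isClosed_topologicalClosure]
    refine Finset.sum_le_sum fun j _ => ?_
    rw [Submodule.topologicalClosure_coe, Metric.infDist_closure]
    have hne : (U : Set (EE H (prodY H α.support Y))).Nonempty := ⟨0, U.zero_mem⟩
    have h5 : Metric.infDist (dl ((1 : G), ()) : EE G Unit) (R : Set (EE G Unit))
        ≤ Metric.infDist (dl ((1 : H), j)) (U : Set (EE H (prodY H α.support Y))) := by
      rw [Metric.le_infDist hne]
      rintro y ⟨f, rfl⟩
      set d := rep H (prodY H α.support Y) with hd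
      have h6 : tr (d j) (cop α (ex (pt H (rep H Y)) (pt_injective H _ (rep_dist H Y)) f))
          ∈ (R : Set (EE G Unit)) := by
        rw [← cop_eqv]
        exact ⟨_, rfl⟩
      refine (Metric.infDist_le_dist_of_mem h6).trans (le_of_eq ?_)
      rw [dist_eq_norm, dist_eq_norm]
      have h7 : (dl ((1 : G), ()) : EE G Unit) = tr (d j) (dl (d j, ())) := by
        rw [tr_dl, mul_inv_cancel]
      have h8 : (dl ((1 : G), ()) : EE G Unit)
          - tr (d j) (cop α (ex (pt H (rep H Y)) (pt_injective H _ (rep_dist H Y)) f))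
          = tr (d j) (ex (pt H d) (pt_injective H d (rep_dist H _)) (dl ((1 : H), j) - T f)) := by
        rw [map_sub, ex_dl H d (rep_dist H _)]
        have h9 : ex (pt H d) (pt_injective H d (rep_dist H _)) (T f)
            = cop α (ex (pt H (rep H Y)) (pt_injective H _ (rep_dist H Y)) f) :=
          ex_TT H α (rep H Y) (rep_dist H Y) d (rep_dist H _) (prodY_rep H α Y) f
        rw [h9, h7]
        rfl
      rw [h8, norm_tr, norm_ex]
      rfl
    have h9 : 0 ≤ Metric.infDist (dl ((1 : G), ()) : EE G Unit) (R : Set (EE G Unit)) :=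
      Metric.infDist_nonneg
    have h10 := pow_le_pow_left₀ h9 h5 2
    linarith
  rw [Finset.sum_const, nsmul_eq_mul, Finset.card_univ, ← h3, Fintype.card_coe] at h4
  have h5 : vd R = 1 - kdim α := by linarith
  rw [h5] at h4
  linarith

theorem kern_tr (α : G →₀ ℂ) (k : G) (F : EE G Unit) (hF : cop α F = 0) : cop α (tr k F) = 0 := by
  rw [cop_eqv, hF, tr_zero]

/-- upper bound -/
theorem upper_bd (Y : Finset (G ⧸ H)) (α : G →₀ ℂ) : kdimOn H Y α ≤ Y.card * kdim α := by
  classical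
  rw [kdim_eq_vd, vd_eq_infDist _ (ContinuousLinearMap.isClosed_ker _)]
  simp only [Finset.univ_unique, PUnit.default_eq_unit, Finset.sum_singleton]
  unfold kdimOn
  rw [← nsmul_eq_mul, ← Finset.sum_const]
  refine Finset.sum_le_sum fun y _ => ?_
  set K := (LinearMap.ker (cop α : EE G Unit →ₗ[ℂ] EE G Unit) : Set (EE G Unit)) with hK
  have h0 : (0 : lp (fun _ : G => ℂ) 2) ∈ kernOn H Y α := by
    refine ⟨fun g => by simp, fun x hx => absurd rfl hx⟩
  have h5 : Metric.infDist (dl ((1 : G), ()) : EE G Unit) K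
      ≤ Metric.infDist (lp.single 2 (Quotient.out y) (1 : ℂ)) (kernOn H Y α) := by
    rw [Metric.le_infDist ⟨0, h0⟩]
    intro f hf
    have h6 : tr (Quotient.out y : G) (toU f) ∈ K := by
      change cop α (tr _ (toU f)) = 0
      apply kern_tr
      ext ⟨x, ⟨⟩⟩
      rw [cop_apply]
      exact hf.1 x
    refine (Metric.infDist_le_dist_of_mem h6).trans (le_of_eq ?_)
    rw [dist_eq_norm, dist_eq_norm]
    have h7 : (dl ((1 : G), ()) : EE G Unit) = tr (Quotient.out y : G) (dl (Quotient.out y, ())) := by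
      rw [tr_dl, mul_inv_cancel]
    have h8 : (dl ((1 : G), ()) : EE G Unit) - tr (Quotient.out y : G) (toU f)
        = tr (Quotient.out y : G) (toU (lp.single 2 (Quotient.out y) (1 : ℂ) - f)) := by
      rw [toU_sub, toU_single']
      rw [h7]
      rfl
    rw [h8, norm_tr, norm_toU]
  have h9 : 0 ≤ Metric.infDist (dl ((1 : G), ()) : EE G Unit) K := Metric.infDist_nonneg
  have h10 := pow_le_pow_left₀ h9 h5 2
  linarith

theorem kdimOn_eq_zero (Y : Finset (G ⧸ H)) (α : G →₀ ℂ)
    (h : ∀ f ∈ kernOn H Y α, f = 0) : kdimOn H Y α = 0 := by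
  classical
  unfold kdimOn
  have h0 : (0 : lp (fun _ : G => ℂ) 2) ∈ kernOn H Y α := by
    refine ⟨fun g => by simp, fun x hx => absurd rfl hx⟩
  have h1 : kernOn H Y α = {0} := by
    ext f
    rw [Set.mem_singleton_iff]
    exact ⟨h f, fun h2 => by rw [h2]; exact h0⟩
  rw [h1]
  apply Finset.sum_eq_zero
  intro y _
  rw [Metric.infDist_singleton, dist_zero_right, lp.norm_single (by norm_num)]
  simp

end

end Pool.Agent.NH47.AZ
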